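import Mathlib
import Pool.Agent.Q137.Vert.Plane

/-!
# An arrangement of `n ≥ 10` lines of the real projective plane has at least `2n - 4` vertices

The real projective plane is described by the subspaces of `ℝ³`: its points are the subspaces of
dimension one, its lines are the subspaces of dimension two, and a point lies on a line if it is
contained in it. A 2-arrangement is a finite set of at least three lines that have no common
point; a near-pencil is one with a point on all of its lines but one.

We prove that every 2-arrangement of `n ≥ 10` lines that is not a near-pencil has at least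
`2n - 4` vertices. (This was known for `n = 10`, `n = 11` and `n ≥ 27`.)

The proof is elementary. If some vertex lies on `r` of the lines, and `k = n - r`, then there are
at least `1 + r k - k (k - 1) / 2` vertices, which is enough if `3 r ≥ n + 5`. Otherwise Melchior's
inequality, `∑ m_v (m_v - 1) = n (n - 1)` and `(m_v - 2) (r - m_v) ≥ 0` for the multiplicities
`m_v` of the vertices, `r` the largest one, give `(r + 3) f₀ ≥ n (n - 1) + 3 (r + 1)`. This is
enough except for `(n, r) = (10, 4), (11, 5), (12, 5), (14, 6)`. These cases are excluded by
the integrality of the numbers of vertices of each multiplicity and by counting the incidences of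
the lines with the vertices of multiplicity at least four (Cauchy's inequality).
-/

set_option autoImplicit false

namespace Pool.Agent.Results.MP_3f465e_co.TwoNMinusFour

open Module

/-- The points of the real projective plane: the one-dimensional subspaces of `ℝ³`. -/
def IsPoint (P : Submodule ℝ (Fin 3 → ℝ)) : Prop := finrank ℝ P = 1

/-- The lines of the real projective plane: the two-dimensional subspaces of `ℝ³`. -/
def IsLine (L : Submodule ℝ (Fin 3 → ℝ)) : Prop := finrank ℝ L = 2

/-- A 2-arrangement: at least three distinct lines without a common point. -/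
def IsArrangement (A : Finset (Submodule ℝ (Fin 3 → ℝ))) : Prop :=
  3 ≤ A.card ∧ (∀ L ∈ A, IsLine L) ∧ ¬ ∃ P, IsPoint P ∧ ∀ L ∈ A, P ≤ L

/-- The near-pencil: a point lies on all lines but one. -/
def IsNearPencil (A : Finset (Submodule ℝ (Fin 3 → ℝ))) : Prop :=
  ∃ P, IsPoint P ∧ ∃ L₀ ∈ A, ¬ P ≤ L₀ ∧ ∀ L ∈ A, L ≠ L₀ → P ≤ L

/-- The vertices: the points that lie on at least two of the lines. -/
def vertices (A : Finset (Submodule ℝ (Fin 3 → ℝ))) : Set (Submodule ℝ (Fin 3 → ℝ)) :=
  {P | IsPoint P ∧ ∃ L ∈ A, ∃ M ∈ A, L ≠ M ∧ P ≤ L ∧ P ≤ M}

/-- **Main theorem.** Every 2-arrangement of `n ≥ 10` lines of the real projective plane that is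
not the near-pencil has at least `2n - 4` vertices (and finitely many). -/
theorem result (A : Finset (Submodule ℝ (Fin 3 → ℝ))) (hA : IsArrangement A)
    (hN : ¬ IsNearPencil A) (hn : 10 ≤ A.card) :
    (vertices A).Finite ∧ 2 * A.card - 4 ≤ (vertices A).ncard := by
  have h := Q137.Vert.arrangement A hA.2.1 hn hA.2.2 hN
  have hfin := Q137.Vert.vert_finite A hA.2.1
  exact ⟨hfin, by
    change 2 * A.card - 4 ≤ (Q137.Vert.vert A).ncard
    omega⟩

end Pool.Agent.Results.MP_3f465e_co.TwoNMinusFour
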